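import Pool.Agent.T9h21.DP.Spec3

/-!
# (u3b) Tours as lists and the length of a shortest tour
-/

open Finset
open scoped ENNReal

set_option autoImplicit false

namespace Pool.Agent.T9h70.DP

open Pool.Agent.T9h48.SC Pool.Agent.T9h48.TSP Pool.Agent.T9h21.DP

lemma finRotate_val {n : ℕ} (i : Fin n) : ((finRotate n i : Fin n) : ℕ) = ((i : ℕ) + 1) % n := by
  cases n with
  | zero => exact i.elim0
  | succ m =>
    rw [finRotate_apply, Fin.val_add, Fin.val_one']
    simp

/-- the cyclic length of the list of the values of a map -/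
lemma clen_ofFn {n : ℕ} (p : Fin n → ℤ × ℤ) (g : Fin n → Fin n) :
    clen p (List.ofFn g) = ∑ i, eucl (p (g i)) (p (g (finRotate n i))) := by
  unfold clen
  rw [← List.sum_ofFn]
  congr 1
  refine List.ext_getElem (by simp) fun k h1 h2 => ?_
  rw [List.getElem_zipWith, List.getElem_rotate, List.getElem_ofFn, List.getElem_ofFn,
    List.getElem_ofFn]
  have hk : k < n := by simpa using h2
  have e : (⟨(k + 1) % (List.ofFn g).length, by
      rw [List.length_ofFn]; exact Nat.mod_lt _ (by omega)⟩ : Fin n) =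
      finRotate n ⟨k, hk⟩ := by
    refine Fin.ext ?_
    rw [finRotate_val]
    simp
  rw [e]

theorem tsp_tour (n : ℕ) (p : Fin n → ℤ × ℤ) (_ : 1 ≤ n) : Tour p univ (tsp p) := by
  obtain ⟨τ, hτ⟩ := exists_eq_ciInf_of_finite (f := fun τ : Equiv.Perm (Fin n) => tourLen p τ)
  refine ⟨List.ofFn τ, List.nodup_ofFn.2 τ.injective, ?_, ?_⟩
  · ext v
    simp only [List.mem_toFinset, List.mem_ofFn, mem_univ, iff_true]
    exact τ.surjective v
  · rw [clen_ofFn]
    exact le_of_eq hτ

theorem tour_tsp (n : ℕ) (p : Fin n → ℤ × ℤ) (r : ℝ) (_ : 1 ≤ n) (h : Tour p univ r) :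
    tsp p ≤ r := by
  obtain ⟨l, hl, hA, hr⟩ := h
  have hlen : l.length = n := by
    rw [← List.toFinset_card_of_nodup hl, hA, card_univ, Fintype.card_fin]
  let g : Fin n → Fin n := fun i => l[(i : ℕ)]'(by rw [hlen]; exact i.2)
  have hg : Function.Injective g := fun i j hij => by
    have h1 := (hl.getElem_inj_iff (i := (i : ℕ)) (j := (j : ℕ))
      (hi := by rw [hlen]; exact i.2) (hj := by rw [hlen]; exact j.2)).1 hij
    exact Fin.ext h1
  let τ : Equiv.Perm (Fin n) := Equiv.ofBijective g (Finite.injective_iff_bijective.1 hg)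
  have hlg : l = List.ofFn g := by
    refine List.ext_getElem (by rw [hlen, List.length_ofFn]) fun k h1 h2 => ?_
    rw [List.getElem_ofFn]
  refine (tsp_le p τ).trans ?_
  rw [hlg, clen_ofFn] at hr
  exact hr

end Pool.Agent.T9h70.DP
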