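import Pool.Agent.T9h21.DP.Spec

/-!
# Piece `inst` of the project DPA
-/

open Finset
open scoped ENNReal

set_option autoImplicit false

namespace Pool.Agent.T9h70.DP

open Pool.Agent.T9h48.SC Pool.Agent.T9h48.TSP Pool.Agent.T9h21.DP

variable {m : ℕ}

/-- the instance -/
def P (X : Cfg m) (v : Fin (m + 1)) : ℤ × ℤ :=
  (((m : ℤ) + 1) * ((X v : ℕ) : ℤ), ((v : ℕ) : ℤ))

lemma P_inj (X : Cfg m) : Function.Injective (P X) := by
  intro u v h
  have h2 : ((u : ℕ) : ℤ) = ((v : ℕ) : ℤ) := congrArg Prod.snd h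
  exact Fin.ext (by exact_mod_cast h2)

lemma P_fst (X : Cfg m) (u v : Fin (m + 1)) : (((P X u).1 - (P X v).1 : ℤ) : ℝ) =
    ((m : ℝ) + 1) * (((X u : ℕ) : ℝ) - ((X v : ℕ) : ℝ)) := by
  unfold P
  push_cast
  ring

lemma P_snd (X : Cfg m) (u v : Fin (m + 1)) : (((P X u).2 - (P X v).2 : ℤ) : ℝ) =
    ((u : ℕ) : ℝ) - ((v : ℕ) : ℝ) := by
  unfold P
  push_cast
  ring

lemma fin_le (u : Fin (m + 1)) : ((u : ℕ) : ℝ) ≤ m := by
  have := u.2
  exact_mod_cast (by omega : (u : ℕ) ≤ m)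

lemma eucl_P_le (X : Cfg m) (u v : Fin (m + 1)) : eucl (P X u) (P X v) ≤
    ((m : ℝ) + 1) * |((X u : ℕ) : ℝ) - ((X v : ℕ) : ℝ)| + m := by
  refine eucl_le (by positivity) ?_
  rw [P_fst, P_snd]
  have hu := fin_le u
  have hv := fin_le v
  have hu0 : (0 : ℝ) ≤ ((u : ℕ) : ℝ) := Nat.cast_nonneg _
  have hv0 : (0 : ℝ) ≤ ((v : ℕ) : ℝ) := Nat.cast_nonneg _
  have hm : (0 : ℝ) ≤ m := Nat.cast_nonneg _
  have e2 : (((u : ℕ) : ℝ) - ((v : ℕ) : ℝ)) ^ 2 ≤ (m : ℝ) ^ 2 :=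
    sq_le_sq' (by linarith) (by linarith)
  have e1 : (((X u : ℕ) : ℝ) - ((X v : ℕ) : ℝ)) ^ 2 =
      |((X u : ℕ) : ℝ) - ((X v : ℕ) : ℝ)| ^ 2 := (sq_abs _).symm
  rw [mul_pow, e1]
  have e3 : 0 ≤ ((m : ℝ) + 1) * |((X u : ℕ) : ℝ) - ((X v : ℕ) : ℝ)| * m := by positivity
  nlinarith

lemma le_eucl_P (X : Cfg m) (e : Pr m) : ((m : ℝ) + 1) * ((gap X e : ℕ) : ℝ) ≤
    eucl (P X e.1) (P X e.2) := by
  refine le_eucl ?_
  rw [P_fst, P_snd]
  have h1 : ((gap X e : ℕ) : ℝ) ^ 2 = (((X e.1 : ℕ) : ℝ) - ((X e.2 : ℕ) : ℝ)) ^ 2 := by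
    unfold gap
    rcases le_total (X e.1 : ℕ) (X e.2 : ℕ) with h | h
    · rw [Nat.sub_eq_zero_of_le h, zero_add, Nat.cast_sub h]
      ring
    · rw [Nat.sub_eq_zero_of_le h, add_zero, Nat.cast_sub h]
  rw [mul_pow, mul_pow, h1]
  have := sq_nonneg (((e.1 : ℕ) : ℝ) - ((e.2 : ℕ) : ℝ))
  linarith

lemma rot (a : Fin (m + 1) → ℝ) (ha : Monotone a) :
    ∑ i, |a i - a (finRotate (m + 1) i)| = 2 * (a (Fin.last m) - a 0) := by
  rw [Fin.sum_univ_castSucc]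
  have h1 : ∀ i : Fin m, |a i.castSucc - a (finRotate (m + 1) i.castSucc)| =
      a i.succ - a i.castSucc := by
    intro i
    rw [finRotate_apply, Fin.coeSucc_eq_succ, abs_sub_comm, abs_of_nonneg]
    exact sub_nonneg.2 (ha (Fin.castSucc_lt_succ).le)
  rw [sum_congr rfl fun i _ => h1 i, sum_sub_distrib, finRotate_last, abs_of_nonneg
    (sub_nonneg.2 (ha (Fin.zero_le _)))]
  have h2 := Fin.sum_univ_castSucc a
  have h3 := Fin.sum_univ_succ a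
  linarith

lemma tour (X : Cfg m) : tourLen (P X) (Tuple.sort X) ≤ 3 * ((m : ℝ) + 1) ^ 2 := by
  have hmono : Monotone (X ∘ Tuple.sort X) := Tuple.monotone_sort X
  have ha : Monotone (fun i => ((X (Tuple.sort X i) : ℕ) : ℝ)) := fun i j hij => by
    have h : X (Tuple.sort X i) ≤ X (Tuple.sort X j) := hmono hij
    show ((X (Tuple.sort X i) : ℕ) : ℝ) ≤ ((X (Tuple.sort X j) : ℕ) : ℝ)
    exact_mod_cast h
  have h1 : tourLen (P X) (Tuple.sort X) ≤ ∑ i, (((m : ℝ) + 1) *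
      |((X (Tuple.sort X i) : ℕ) : ℝ) - ((X (Tuple.sort X (finRotate (m + 1) i)) : ℕ) : ℝ)| +
        m) := sum_le_sum fun i _ => eucl_P_le X _ _
  rw [sum_add_distrib, ← mul_sum, rot _ ha, sum_const, card_univ, Fintype.card_fin,
    nsmul_eq_mul] at h1
  have h2 := fin_le (X (Tuple.sort X (Fin.last m)))
  have h3 : (0 : ℝ) ≤ ((X (Tuple.sort X 0) : ℕ) : ℝ) := Nat.cast_nonneg _
  have hm : (0 : ℝ) ≤ m := Nat.cast_nonneg _
  push_cast at h1
  have h4 : ((m : ℝ) + 1) * (2 * (((X (Tuple.sort X (Fin.last m)) : ℕ) : ℝ) -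
      ((X (Tuple.sort X 0) : ℕ) : ℝ))) ≤ ((m : ℝ) + 1) * (2 * m) :=
    mul_le_mul_of_nonneg_left (by linarith) (by linarith)
  nlinarith

/-- a cheap monomial for every placement -/
theorem inst (m : ℕ) : S_inst m := by
  intro C ρ hρ hC X
  obtain ⟨val, hrun, _, hup⟩ := hC ((m + 1) ^ 2 + m) (P X) (P_inj X) (by
    intro v
    have h1 := v.2
    have h2 : ((X v : ℕ) : ℤ) ≤ m := by
      have := (X v).2
      omega
    have h3 : (0 : ℤ) ≤ ((X v : ℕ) : ℤ) := Int.natCast_nonneg _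
    have h4 : (0 : ℤ) ≤ (m : ℤ) := Int.natCast_nonneg _
    unfold P
    dsimp only
    push_cast
    refine ⟨by positivity, by nlinarith, by positivity, ?_⟩
    have h5 : ((v : ℕ) : ℤ) ≤ m := by omega
    nlinarith)
  obtain ⟨M, c, hM, hM'⟩ := attainC hrun C.out
  have h1 : TropCircuit.nodeVal (dists (P X)) val C.out ≤
      ENNReal.ofReal (ρ * (3 * ((m : ℝ) + 1) ^ 2)) :=
    hup.trans (ENNReal.ofReal_le_ofReal
      (mul_le_mul_of_nonneg_left ((tsp_le _ _).trans (tour X)) hρ))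
  refine ⟨M, c, hM, ne_top_of_le_ne_top ENNReal.ofReal_ne_top
    (le_trans le_add_self (hM'.trans h1)), ?_⟩
  have h2 := le_trans le_self_add (hM'.trans h1)
  rw [sum_dists, ENNReal.ofReal_le_ofReal_iff (by positivity)] at h2
  have h3 : ((m : ℝ) + 1) * (S M (gap X) : ℝ) ≤
      (M.map fun e => eucl (P X e.1) (P X e.2)).sum := by
    unfold S
    rw [Nat.cast_multiset_sum, Multiset.map_map, ← Multiset.sum_map_mul_left]
    exact Multiset.sum_map_le_sum_map _ _ fun e _ => le_eucl_P X e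
  have h4 : (0 : ℝ) < (m : ℝ) + 1 := by positivity
  have h5 : ((m : ℝ) + 1) * (S M (gap X) : ℝ) ≤ ((m : ℝ) + 1) * (3 * ρ * (m + 1)) := by
    refine (h3.trans h2).trans (le_of_eq ?_)
    ring
  exact le_of_mul_le_mul_left h5 h4

end Pool.Agent.T9h70.DP
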