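import Pool.Agent.T9h21.DP.Spec

/-!
# Piece `root` of the project DPA
-/

open Finset
open scoped ENNReal

set_option autoImplicit false

namespace Pool.Agent.T9h70.DP

open Pool.Agent.T9h48.SC Pool.Agent.T9h48.TSP Pool.Agent.T9h21.DP

/-- all nonconstant cuts are crossed at the output -/
theorem root (m : ℕ) : S_root m := by
  classical
  rintro C ρ hC χ ⟨u, hu⟩ ⟨v, hv⟩
  unfold Gd
  rw [mem_filter]
  refine ⟨mem_univ _, fun M c hM hc => ?_⟩
  obtain ⟨D, hD⟩ := exists_nat_gt ((S M nl : ℝ) * (m + 1) + c.toReal)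
  have h2 : 2 ≤ S M (cross χ) :=
    cut_lemma (hC (max D m)) hM (r := c.toReal) ENNReal.toReal_nonneg
      (le_of_eq (ENNReal.ofReal_toReal hc).symm) (D := D) (le_max_left _ _) (le_max_right _ _)
      hD χ hu hv
  unfold Hits
  by_contra hcon
  push Not at hcon
  have h1 : S M (cross χ) = 0 := by
    unfold S
    rw [Multiset.sum_eq_zero_iff]
    intro x hx
    obtain ⟨e, he, rfl⟩ := Multiset.mem_map.1 hx
    unfold cross
    rw [if_pos (hcon e he)]
  omega

end Pool.Agent.T9h70.DP
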